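import Pool.Agent.Run7.h469.TR.P8da9ea

/-!
# The elliptico-toric inequality for `E × G_m` in bounded degree along Euclid's algorithm

Let `E` be the elliptic curve `y² = 4 x³ - g₂ x - g₃` with rational `g₂`, `g₃`, `(z, y)` ANY point of the Lie algebra `ℂⁿ × ℂˢ` of
`E^n × G_m^s` and `w_1, …, w_q` complex numbers (for instance `ω₁, ω₂, η₁, η₂`). We call a tuple `(t_1, …, t_(n+s))` of integers good
if for all translates `(p, y')` of `(z, y)` by logarithms of the point of `E^n × G_m^s` with the coordinates `t_i`,
`℘(p_i - z_i) = t_i` for `i ≤ n` and `exp(y'_l - y_l) = t_(n+l)` for `l ≤ s`, every polynomial relation of degree at most `δ`, over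
a number field of degree at most `d` and of any height, between `w_1, …, w_q`, the numbers `p_i`, `ζ(p_i)`, `y'_l` and the numbers
`℘(p_i)`, `℘'(p_i)`, `exp(y'_l)` is an identity in the numbers `p_i`, `ζ(p_i)`, `y'_l`.

The subtractive Euclidean algorithm replaces a pair `(a, b)` of positive integers by `(a, b - a)` or `(a - b, b)`. Let `n = s = 1`.
We prove that for all pairs `(a, b)` in `[1, X]^2` with at most `C X^2 H^(-η)` exceptions, for ALL pairs `(u, v)` with
`max(u, v) ≥ H` of the algorithm of `(a, b)` ALL pairs `t = M (u, v) + b` of nonzero integers are good, where `M` is an integral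
`2 × 2` matrix with `det M ≠ 0`, `b` an integral vector and the entries of `M` and `b` are at most `max(u, v)^η`. The numbers `η > 0` and `C` depend only on the curve, `q`, `δ` and `d`, not on `(z, y)` and `w`. The
bound for the number of the exceptions is small for large `H`, uniformly in `X`.

The starting theorem `AlmostAllTranslates` of this problem bounds the number of pairs up to `U` which are not good by
`C U^(2 - c)`. For the
algorithm a pair `(u, v)` counts with the number of the pairs in `[1, X]^2` above it in the tree, at most `6 X^2 / (u v)`; a pair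
with a small coordinate `v` counts too much, and so the chains `(u, v), (u - v, v), …` with a small `v` are treated as a whole.
-/

set_option autoImplicit false

namespace Pool.Agent.Results.MP_8da9ea_nt.EuclideanAlgorithm

open Finset MeasureTheory
open Run7.h469.Ab (euclidExceptions)
open Run7.h469.Vp (Combinations)
open Run7.h469.TR.P8da9ea (Good few)

/-- **The elliptico-toric inequality along Euclid's algorithm.** Let `Λ` be a lattice with rational invariants. For all `q`, `δ`, `d`
there are `η > 0` and `C` such that for all `w` in `ℂ^q`, all points `(z, y)` of `ℂ × ℂ` and all `X` and `H ≥ 1`: for all but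
`C X^2 H^(-η)` of the pairs `(a, b)` in `[1, X]^2`, for all pairs `(u, v)` with `max(u, v) ≥ H` of the subtractive Euclidean
algorithm of `(a, b)`, all pairs `M (u, v) + b` of nonzero integers, `det M ≠ 0`, with entries of `M` and `b` at most
`max(u, v)^η` are good. -/
theorem result (Λ : PeriodPair) (a b : ℚ) (ha : Λ.g₂ = a) (hb : Λ.g₃ = b) (q δ d : ℕ) :
    ∃ η C : ℝ, 0 < η ∧ ∀ (w : Fin q → ℂ) (z y : Fin 1 → ℂ) (X H : ℕ), 1 ≤ H →
      ((euclidExceptions (Combinations η (Good (n := 1) (s := 1) Λ δ d w z y)) X H).card : ℝ) ≤
        C * (X : ℝ) ^ 2 * (H : ℝ) ^ (-η) := by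
  obtain ⟨c, hc, hc1, C, hC, h⟩ := few Λ a b ha hb 1 1 q δ d
  obtain ⟨η, C', hη, hE⟩ := Run7.h469.Vp.euclid_saving hc (by linarith) hC
  refine ⟨η, C', hη, fun w z y => hE _ ?_⟩
  have h1 := h w z y
  have e : ((1 + 1 : ℕ) : ℝ) = 2 := by norm_num
  rw [e] at h1
  exact h1

end Pool.Agent.Results.MP_8da9ea_nt.EuclideanAlgorithm
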