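import Pool.Agent.Run7.h469.TR.P8da9ea

/-!
# The elliptico-toric inequality for `E × G_m` in bounded degree in the Farey intervals around a real number

Let `E` be the elliptic curve `y² = 4 x³ - g₂ x - g₃` with rational `g₂`, `g₃`, `(z, y)` ANY point of the Lie algebra `ℂⁿ × ℂˢ` of
`E^n × G_m^s` and `w_1, …, w_q` complex numbers (for instance `ω₁, ω₂, η₁, η₂`). We call a tuple `(t_1, …, t_(n+s))` of integers good
if for all translates `(p, y')` of `(z, y)` by logarithms of the point of `E^n × G_m^s` with the coordinates `t_i`,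
`℘(p_i - z_i) = t_i` for `i ≤ n` and `exp(y'_l - y_l) = t_(n+l)` for `l ≤ s`, every polynomial relation of degree at most `δ`, over
a number field of degree at most `d` and of any height, between `w_1, …, w_q`, the numbers `p_i`, `ζ(p_i)`, `y'_l` and the numbers
`℘(p_i)`, `℘'(p_i)`, `exp(y'_l)` is an identity in the numbers `p_i`, `ζ(p_i)`, `y'_l`.

Let `n = s = 1`. We prove that for all real `α > 0` outside a set of Hausdorff dimension at most `1 - η`, and for almost all `α` with respect to
every measure of larger dimension, ALL but finitely many Farey intervals `[q / s, p / r]`, `p s - q r = 1`, around `α` have the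
following property: for `(u, v)` one of the four pairs `(p, q)`, `(r, s)`, `(p, r)`, `(q, s)` ALL pairs `t = M (u, v) + b` of
nonzero integers are good, where `M` is an integral `2 × 2` matrix with `det M ≠ 0`, `b` an integral vector and the entries of
`M` and `b` are at most `max(u, v)^η`. Here `η > 0` depends only on the curve, `q`, `δ` and `d`. For almost all real `α` this is true for ALL degrees `δ`, `d` at the same time. The Farey intervals around `α` are those on the path to `α` in the
Stern-Brocot tree.

The starting theorem `AlmostAllTranslates` of this problem bounds the number of pairs up to `U` which are not good by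
`C U^(2 - c)`. The starting theorem `BestApproximations` of this problem is about integer vectors for which a linear form is near an integer. A Farey interval around `α` can be much longer than `1 / r^2`, and `r / s` is not near a number determined by
`α`. The chains of intervals with a common end are treated as a whole.
-/

set_option autoImplicit false

namespace Pool.Agent.Results.MP_8da9ea_nt.FareyIntervals

open Finset MeasureTheory
open Run7.h469.Ab (badIntervals)
open Run7.h469.Vp (Combinations)
open Run7.h469.TR.P8da9ea (Good few)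

/-- **The elliptico-toric inequality in Farey intervals.** Let `Λ` be a lattice with rational invariants and `q` a natural number.
(1) For all `δ`, `d` there is `η > 0` such that for all `w` in `ℂ^q` and all points `(z, y)` of `ℂ × ℂ`: for all `α > 0` outside a
set of Hausdorff dimension at most `1 - η`, and for almost all `α > 0` for all measures of a dimension `m > 1 - η`, there are only
finitely many `q / s ≤ α ≤ p / r`, `p s - q r = 1`, such that for one of the pairs `(u, v) = (p, q)`, `(r, s)`, `(p, r)`, `(q, s)`
some pair `M (u, v) + b` of nonzero integers, `det M ≠ 0`, with entries of `M` and `b` at most `max(u, v)^η`, is not good. (2) For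
all `w`, `(z, y)`, for almost all `α > 0`, for ALL `δ`, `d` there is `η > 0` such that this is true. -/
theorem result (Λ : PeriodPair) (a b : ℚ) (ha : Λ.g₂ = a) (hb : Λ.g₃ = b) (q : ℕ) :
    (∀ δ d : ℕ, ∃ η : ℝ, 0 < η ∧ ∀ (w : Fin q → ℂ) (z y : Fin 1 → ℂ),
      (∃ E : Set ℝ, dimH E ≤ ENNReal.ofReal (1 - η) ∧
        ∀ α : ℝ, 0 < α → α ∉ E → (badIntervals (Combinations η (Good (n := 1) (s := 1) Λ δ d w z y)) α).Finite) ∧
      ∀ (μ : Measure ℝ) (C₁ m : ℝ), 1 - η < m →
        (∀ (x ρ : ℝ), 0 < ρ → μ (Metric.closedBall x ρ) ≤ ENNReal.ofReal (C₁ * ρ ^ m)) →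
        ∀ᵐ α ∂μ, 0 < α → (badIntervals (Combinations η (Good (n := 1) (s := 1) Λ δ d w z y)) α).Finite) ∧
    ∀ (w : Fin q → ℂ) (z y : Fin 1 → ℂ), ∀ᵐ α : ℝ, ∀ δ d : ℕ, ∃ η : ℝ, 0 < η ∧
      (0 < α → (badIntervals (Combinations η (Good (n := 1) (s := 1) Λ δ d w z y)) α).Finite) := by
  have key : ∀ δ d : ℕ, ∃ η : ℝ, 0 < η ∧ ∀ (w : Fin q → ℂ) (z y : Fin 1 → ℂ),
      (∃ E : Set ℝ, dimH E ≤ ENNReal.ofReal (1 - η) ∧
        ∀ α : ℝ, 0 < α → α ∉ E → (badIntervals (Combinations η (Good (n := 1) (s := 1) Λ δ d w z y)) α).Finite) ∧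
      ∀ (μ : Measure ℝ) (C₁ m : ℝ), 1 - η < m →
        (∀ (x ρ : ℝ), 0 < ρ → μ (Metric.closedBall x ρ) ≤ ENNReal.ofReal (C₁ * ρ ^ m)) →
        ∀ᵐ α ∂μ, 0 < α → (badIntervals (Combinations η (Good (n := 1) (s := 1) Λ δ d w z y)) α).Finite := by
    intro δ d
    obtain ⟨c, hc, hc1, C, hC, h⟩ := few Λ a b ha hb 1 1 q δ d
    obtain ⟨η, hη, hE⟩ := Run7.h469.Vp.farey_saving hc (by linarith) hC
    refine ⟨η, hη, fun w z y => hE _ ?_⟩
    have h1 := h w z y
    have e : ((1 + 1 : ℕ) : ℝ) = 2 := by norm_num
    rw [e] at h1
    exact h1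
  refine ⟨key, fun w z y => ?_⟩
  rw [ae_all_iff]
  intro δ
  rw [ae_all_iff]
  intro d
  obtain ⟨η, hη, h⟩ := key δ d
  filter_upwards [Run7.h469.Vp.ae_of (by linarith) (h w z y).2] with α hα
  exact ⟨η, hη, hα⟩

end Pool.Agent.Results.MP_8da9ea_nt.FareyIntervals
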