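import Pool.Agent.Run7.h469.TR.P8da9ea
import Pool.Agent.Run7.h469.Vm

/-!
# The elliptico-toric inequality in bounded degree: products of linear forms in almost all integer vectors, and in expansions of real vectors

Let `E` be the elliptic curve `y² = 4 x³ - g₂ x - g₃` with rational `g₂`, `g₃`, `(z, y)` ANY point of the Lie algebra `ℂⁿ × ℂˢ` of
`E^n × G_m^s` and `w_1, …, w_q` complex numbers (for instance `ω₁, ω₂, η₁, η₂`). We call a tuple `(t_1, …, t_k)`, `k = n + s`, of integers good
if for all translates `(p, y')` of `(z, y)` by logarithms of the point of `E^n × G_m^s` with the coordinates `t_i`,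
`℘(p_i - z_i) = t_i` for `i ≤ n` and `exp(y'_l - y_l) = t_(n+l)` for `l ≤ s`, every polynomial relation of degree at most `δ`, over
a number field of degree at most `d` and of any height, between `w_1, …, w_q`, the numbers `p_i`, `ζ(p_i)`, `y'_l` and the numbers
`℘(p_i)`, `℘'(p_i)`, `exp(y'_l)` is an identity in the numbers `p_i`, `ζ(p_i)`, `y'_l`.

Let `k, h ≥ 1` (for `h = 1` there are no products, only linear forms). We prove that for all integer vectors `x` in `[-X, X]^D`
with at most `C' Q^(k h (D + 2)) X^(D - c)` exceptions, `C'` depending on `D`, ALL `k`-tuples `t` of products of `h`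
linear forms, `t_i = ∏_(j ≤ h) y_(i,j)` with `y = M x + b`, `M` an integral matrix of rank `k h`, `b` an integral vector, the
entries of `M` and `b` at most `Q`, all `y_(i,j) ≠ 0`, are good. Here `Q` can be a small power of `X`. We prove a similar result
for the integer vectors near `N_n α`, `N_n` a lacunary sequence (for instance the truncations of the expansions in base `g`,
`N_n = g^n`), for all real vectors `α` outside a set of dimension less than `D`, and `M`, `b` with entries up to a power of `N_n`.

The starting theorem `AlmostAllTranslates` of this problem bounds the number of tuples up to `U` which are not good by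
`C U^(k - c)`. The products of `h` integers form a set of
density zero, and so the result for `h ≥ 2` does not follow from this number alone: the divisor bound shows that few vectors `y`
have a bad tuple of products, and for each of the possible `M`, `b` the map `x ↦ M x + b` has small fibres.
-/

set_option autoImplicit false

namespace Pool.Agent.Results.MP_8da9ea_nt.ProductsOfLinearForms

open Finset MeasureTheory
open Run7.h469.Vk (Hits Lacunary Generic Avoids)
open Run7.h469.Vm (ProductIn)
open Run7.h469.TR.P8da9ea (Good few)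

/-- The `(n + s)`-tuples of nonzero integers which are not good. -/
def Bad (Λ : PeriodPair) (δ d : ℕ) {n s q : ℕ} (w : Fin q → ℂ) (z : Fin n → ℂ) (y : Fin s → ℂ) : Set (Fin (n + s) → ℤ) :=
  {t | (∀ i, t i ≠ 0) ∧ ¬ Good Λ δ d w z y t}

/-- **The elliptico-toric inequality for products of linear forms.** Let `Λ` be a lattice with rational invariants and
`k = n + s ≥ 1`. For all `q`, `δ`, `d` there is `c > 0` and for all `h ≥ 1` there is `C` such that for all `w` in `ℂ^q` and all
`(z, y)` in `ℂⁿ × ℂˢ`: (1) for all `D` and `X, Q ≥ 1`, for all but `C ((D + 1)^(k h) 3^((k h + 1) (D + 1))) Q^(k h (D + 2)) X^(D - c)`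
of the integer vectors `x` in `[-X, X]^D` no tuple of the products `∏_(j ≤ h) y_(i,j)` of nonzero coordinates of a vector
`y = M x + b`, `M` integral of rank `k h`, with entries of `M` and `b` at most `Q`, is bad; (2) for lacunary `N_i` and `η ≥ 0`,
outside a set of `α` in `ℝ^D` of dimension at most `D - c + k h (D + 2) η`, for all `A`, for all large `i` the same is true for the
integer vectors `x` with `|x - N_i α| ≤ A` and `M`, `b` with entries at most `A N_i^η`; (3) in particular it is true for almost all
`α`, if `k h (D + 2) η < c`. -/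
theorem result (Λ : PeriodPair) (a b : ℚ) (ha : Λ.g₂ = a) (hb : Λ.g₃ = b) (n s q δ d : ℕ) (hn : 1 ≤ n + s) :
    ∃ c : ℝ, 0 < c ∧ ∀ h : ℕ, 1 ≤ h → ∃ C : ℝ, ∀ (w : Fin q → ℂ) (z : Fin n → ℂ) (y : Fin s → ℂ),
      (∀ D X Q : ℕ, 1 ≤ X → 1 ≤ Q →
        (({x : Fin D → ℤ | (∀ j, |x j| ≤ X) ∧ x ∈ Hits (ProductIn h (Bad Λ δ d w z y)) D Q}.ncard : ℕ) : ℝ) ≤
          C * (((D : ℝ) + 1) ^ ((n + s) * h) * 3 ^ (((n + s) * h + 1) * (D + 1))) * (Q : ℝ) ^ ((n + s) * h * (D + 2)) *
            (X : ℝ) ^ ((D : ℝ) - c)) ∧
      (∀ D : ℕ, 1 ≤ D → ∀ N : ℕ → ℝ, Lacunary N → ∀ η : ℝ, 0 ≤ η →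
        Generic ((D : ℝ) - c + (n + s) * h * (D + 2) * η)
          (fun α : Fin D → ℝ => Avoids (ProductIn h (Bad Λ δ d w z y)) N η α)) ∧
      ∀ D : ℕ, 1 ≤ D → ∀ N : ℕ → ℝ, Lacunary N → ∀ η : ℝ, 0 ≤ η → (n + s) * h * (D + 2) * η < c →
        ∀ᵐ α : Fin D → ℝ, Avoids (ProductIn h (Bad Λ δ d w z y)) N η α := by
  obtain ⟨c, hc, hc1, C, hC, hf⟩ := few Λ a b ha hb n s q δ d
  refine ⟨c / 2, by linarith, fun h hh => ?_⟩
  have hh1 : (1 : ℝ) ≤ h := by exact_mod_cast hh
  obtain ⟨C', -, key⟩ := Run7.h469.Vm.products_of_forms (k := n + s) (b := h) hn hh hC (c := c) (c' := c / 2)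
    (by linarith) (by linarith) (by nlinarith)
  refine ⟨C', fun w z y => ?_⟩
  have h1 := key _ (hf w z y)
  push_cast at h1
  exact h1

end Pool.Agent.Results.MP_8da9ea_nt.ProductsOfLinearForms
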