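import Pool.Agent.Run7.h788.TransR

/-!
# The elliptico-toric inequality in bounded degree for random points of given groups

Let `E = ℂ/Ω` be an elliptic curve with complex multiplication by `α` and with algebraic invariants.  Let
`u_{i,1}, …, u_{i,k}` (`i ≤ n`) be elliptic logarithms of ARBITRARY algebraic points of `E`, linearly
independent over `End(E) ⊗ ℚ`, let `λ_{l,1}, …, λ_{l,k}` (`l ≤ s`) be logarithms of ARBITRARY algebraic
numbers, linearly independent over `ℚ`, and let `(z, y)` be ANY point of the Lie algebra `ℂⁿ × ℂˢ` of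
`E^n × G_m^s`.  We translate it by random points of the given groups:

  `p_i = z_i + ∑_a (m_{i,a,0} + m_{i,a,1} α) u_{i,a}`,  `t_l = y_l + ∑_a m'_{l,a} λ_{l,a}`,

with all the coefficients in a finite set `A` of integers (for instance `A = {0, 1}`).

**Theorem.** For all `n`, `q`, `s`, `D` there are `k₀`, `C` and `δ > 0` such that for all `k ≥ k₀`, all these
`E`, `u`, `λ`, `A`, all `(z, y)` and ALL complex numbers `w_1, …, w_q` (for instance `ω₁, ω₂, η₁, η₂` and
`2 π i`), for all but `C |A| ^ ((2 n + s) k - δ k)` of the coefficients, the `p_i` are not in the lattice and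
every polynomial relation of degree at most `D` with algebraic coefficients between

  `w_1, …, w_q`, the logarithms `p_i`, `ζ(p_i)`, `t_l`, and the numbers `℘(p_i)`, `℘'(p_i)`, `exp(t_l)`

is an identity in the logarithms `p_i`, `ζ(p_i)`, `t_l`.

So in bounded degree the transcendence degree of the elliptico-toric field over `ℚ(ω₁, ω₂, η₁, η₂)` is at
least `2 n + s`; the transcendence degree of `ℚ(ω₁, ω₂, η₁, η₂)` is `2 = 4 / [k : ℚ]` by Chudnovsky's
theorem, and one obtains the full elliptico-toric lower bound.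

In the starting results `AlmostAllTranslates` and `GrowingDegreeTranslates` the curve has rational
invariants, the random points are those with integral `x`-coordinate of bounded degree and size, the
relations are over number fields of bounded degree, and the proportion of exceptions is `C T ^ (-c)`; here the
curve is any curve with complex multiplication over the algebraic numbers, the random points are in given
groups, the relations are over the field of all algebraic numbers, and the proportion is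
`C |A| ^ (-δ k)`, exponentially small.  In `GenericToricElliptic` the points of the groups are not
translated, `℘(p_i)`, `exp(t_l)` are algebraic, and the exceptions are in a hypersurface, so that there may be
a proportion `C |A| ^ (-1)` of exceptions, and nothing follows for `A = {0, 1}`.

**The proof.**  The theorem on random points relative to a space of coefficients of bounded dimension
(`Run7.h788.rand_mix`, see `MP_4b482e_nt.RandomPoints`) for a power of the space generated by `1`, `w`,
`ω₁`, `ω₂`, `z`, `℘(z)`, `℘'(z)`, `ζ(z)`, `y`, `exp(y)` and the addition theorem with denominators, after the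
starting result `AlmostAllTranslates`.
-/

set_option autoImplicit false

open scoped PeriodPair

noncomputable section

namespace Pool.Agent.Results.MP_8da9ea_nt.RandomTranslates

/-- The field of algebraic numbers. -/
abbrev Qbar : IntermediateField ℚ ℂ := algebraicClosure ℚ ℂ

/-- The Weierstrass zeta function
`ζ(z) = 1/z + ∑_{l ≠ 0} (1/(z - l) + 1/l + z/l²)` (in Lean `1/0 = 0`, so that the term with `l = 0`
of the sum below is `1/z`). -/
def zeta (L : PeriodPair) (z : ℂ) : ℂ := ∑' l : L.lattice, (1 / (z - l) + 1 / l + z / l ^ 2)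

/-- `u` is an elliptic logarithm of an algebraic point (the elements of the lattice are allowed). -/
def EllLog (L : PeriodPair) (u : ℂ) : Prop := u ∈ L.lattice ∨ IsAlgebraic ℚ (℘[L] u)

/-- `β` belongs to the field `k = End(ℂ/Ω) ⊗ ℚ`: some multiple `m β`, `m ≥ 1`, maps the lattice `Ω`
to itself. -/
def IsMult (L : PeriodPair) (β : ℂ) : Prop :=
  ∃ m : ℕ, 0 < m ∧ ∀ ω ∈ L.lattice, (m : ℂ) * β * ω ∈ L.lattice

/-- The numbers `w_j` are linearly independent over `k`. -/
def IndepMult (L : PeriodPair) {R : ℕ} (w : Fin R → ℂ) : Prop :=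
  ∀ β : Fin R → ℂ, (∀ j, IsMult L (β j)) → ∑ j, β j * w j = 0 → ∀ j, β j = 0

/-- A curve `ℂ/Ω` with complex multiplication by `α` over the algebraic numbers. -/
structure CMCurve where
  /-- the lattice `Ω` -/
  L : PeriodPair
  g2 : IsAlgebraic ℚ L.g₂
  g3 : IsAlgebraic ℚ L.g₃
  /-- the multiplication -/
  α : ℂ
  nonreal : α.im ≠ 0
  mult : ∀ ω ∈ L.lattice, α * ω ∈ L.lattice

/-- The point `z_i + ∑_a (m_{i,a,0} + m_{i,a,1} α) u_{i,a}`. -/
def CMCurve.point (E : CMCurve) {n k : ℕ} (u : Fin n → Fin k → ℂ) (z : Fin n → ℂ)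
    (m : Fin n → Fin k × Fin 2 → ℤ) (i : Fin n) : ℂ :=
  z i + ∑ a, ((m i (a, 0) : ℂ) + m i (a, 1) * E.α) * u i a

/-- The number `y_l + ∑_a m_{l,a} λ_{l,a}`. -/
def logPoint {s k : ℕ} (lam : Fin s → Fin k → ℂ) (y : Fin s → ℂ) (m : Fin s → Fin k → ℤ)
    (l : Fin s) : ℂ :=
  y l + ∑ a, (m l a : ℂ) * lam l a

/-- The numbers `p_i`, `ζ(p_i)` and `t_l`. -/
def logarithms (L : PeriodPair) {n s : ℕ} (p : Fin n → ℂ) (t : Fin s → ℂ) :
    Fin n × Fin 2 ⊕ Fin s → ℂ :=
  Sum.elim (fun a => ![p a.1, zeta L (p a.1)] a.2) t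

/-- The numbers `℘(p_i)`, `℘'(p_i)` and `exp(t_l)`. -/
def points (L : PeriodPair) {n s : ℕ} (p : Fin n → ℂ) (t : Fin s → ℂ) : Fin n × Fin 2 ⊕ Fin s → ℂ :=
  Sum.elim (fun a => ![℘[L] (p a.1), ℘'[L] (p a.1)] a.2) fun l => Complex.exp (t l)

/-- Every polynomial relation of degree at most `D` with algebraic coefficients between the constants `w`,
the `logarithms` and the `points` of `(p, t)` is an identity in the logarithms. -/
def FreeOverPoints (L : PeriodPair) (D : ℕ) {q n s : ℕ} (w : Fin q → ℂ) (p : Fin n → ℂ)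
    (t : Fin s → ℂ) : Prop :=
  ∀ P : MvPolynomial (Fin q ⊕ ((Fin n × Fin 2 ⊕ Fin s) ⊕ (Fin n × Fin 2 ⊕ Fin s))) Qbar,
    P.totalDegree ≤ D →
    MvPolynomial.aeval (Sum.elim w (Sum.elim (logarithms L p t) (points L p t))) P = 0 →
    ∀ v : Fin n × Fin 2 ⊕ Fin s → ℂ, MvPolynomial.aeval (Sum.elim w (Sum.elim v (points L p t))) P = 0

/-- All the coefficients are in `A`. -/
def coeffs (n s k : ℕ) (A : Finset ℤ) :
    Finset ((Fin n → Fin k × Fin 2 → ℤ) × (Fin s → Fin k → ℤ)) :=
  (Fintype.piFinset fun _ => Fintype.piFinset fun _ => A) ×ˢ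
    (Fintype.piFinset fun _ => Fintype.piFinset fun _ => A)

open Classical in
/-- **Main result.** -/
theorem result (n q s D : ℕ) : ∃ (k₀ C : ℕ) (δ : ℝ), 0 < δ ∧ ∀ k ≥ k₀,
    ∀ (E : CMCurve) (u : Fin n → Fin k → ℂ),
    (∀ i, (∀ a, EllLog E.L (u i a)) ∧ IndepMult E.L (u i)) →
    ∀ lam : Fin s → Fin k → ℂ,
    (∀ l, (∀ a, IsAlgebraic ℚ (Complex.exp (lam l a))) ∧ LinearIndependent ℚ (lam l)) →
    ∀ A : Finset ℤ, A.Nonempty → ∀ (w : Fin q → ℂ) (z : Fin n → ℂ) (y : Fin s → ℂ),
    (((coeffs n s k A).filter (fun m => ¬ ((∀ i, E.point u z m.1 i ∉ E.L.lattice) ∧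
      FreeOverPoints E.L D w (E.point u z m.1) (logPoint lam y m.2)))).card : ℝ) ≤
      C * (A.card : ℝ) ^ (((2 * n + s) * k : ℝ) - δ * k) := by
  obtain ⟨k₀, C, δ, hδ, h⟩ := Pool.Agent.Run7.h788.Tra.rand_tr n q s D
  exact ⟨k₀, C, δ, hδ, fun k hk E u hu lam hlam A hA w z y =>
    h k hk ⟨E.L, E.g2, E.g3, E.α, E.nonreal, E.mult⟩ u
      (fun j => ⟨(hu j).1, fun β hβ h0 => funext fun i => (hu j).2 β hβ h0 i⟩) lam
      (fun l => (hlam l).1) (fun l => (hlam l).2) A hA w z y⟩

end Pool.Agent.Results.MP_8da9ea_nt.RandomTranslates
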